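import Mathlib
import Pool.Agent.W484.CK.Motivic

/-!
# Parshin's conjecture for products with abelian varieties: the property
-/

set_option autoImplicit false

open CategoryTheory AlgebraicGeometry

universe u v w

namespace Pool.Agent.Y159.Par

open Polynomial Pool.Agent.H914 Pool.Agent.H914.VarClass Pool.Agent.H914.VarClass.Obj
  Pool.Agent.W492.BB Pool.Agent.W484.CK

variable {k : Type u} [Field k] {𝒱 : VarClass k} {C : TheoryData.{u, v, 0} 𝒱 ℚ}

/-- `T` behaves like the rational `K`-groups `K_m(X)_ℚ` for a fixed `m`, with `T^i(X)` the part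
`K_m(X)^(i)` on which the Adams operation `ψ^k` is multiplication by `k ^ i`: correspondences act on
it, and `T(X)` is the sum of the `T^i(X)`. -/
structure IsRationalKGroup (T : MotivicData C) : Prop where
  motivic : IsMotivic T
  adams : ∀ X : 𝒱.Obj, ⨆ i, T.gr X i = ⊤

/-- The group `T(X)` vanishes; for `T = K_m`, `m > 0`, this is the statement of Parshin's
conjecture for `X` and `m`. -/
def Parshin (T : MotivicData C) (X : 𝒱.Obj) : Prop := ∀ m : T.M X, m = 0

/-- `ParshinForRankOver E q r f`: for the Chow groups `C` with rational coefficients of all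
classes `𝒱` of varieties over fields `k` (finite, in the intended use), every Weil cohomology
theory `H` with coefficients in an algebraically closed field `K` of characteristic zero and all
`A`, `Z` as in `IsSituation` there are products `D j` of `deg j` divisor classes on `A`, finitely
many, such that the following holds for all `T` like the rational `K`-groups `K_m`, `m` arbitrary,
for which the Frobenius endomorphism of `A × Z` acts on `T^i(A × Z)` as multiplication by
`q ^ (s i)`: one has `T^i(A × Z) = ⨁ D j × T^(i - deg j)(Z)` for all `i`, and `T(A × Z) = 0` if and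
only if `T(Z) = 0`. -/
def ParshinForRankOver (E : IntermediateField ℚ ℂ) (q r : ℕ) {I : Type} (f : I → ℤ[X]) : Prop :=
  ∀ (k : Type) [Field k] (𝒱 : VarClass k) (C : TheoryData.{0, 0, 0} 𝒱 ℚ) [IsChow C]
    (K : Type) [Field K] [IsAlgClosed K] [CharZero K] (H : WeilTheoryData.{0, 0, 0} C K)
    [IsWeil H] (s : ℕ) (A Z : 𝒱.Obj) (πA : A ⟶ A) (πZ : Z ⟶ Z),
      IsSituation H E q r s f πA πZ →
        ∃ (J : Type) (_ : Fintype J) (deg : J → ℕ) (D : J → C.A A),
          (∀ j, DivisorProduct C (deg j) (D j)) ∧ ∀ T : MotivicData C, IsRationalKGroup T →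
            ActsAsPower T (prodMap πA πZ) (q ^ s) → HasKunneth T A Z deg D ∧
              (Parshin T (A.prod Z) ↔ Parshin T Z)

theorem parshin_iff {T : MotivicData C} (hT : IsRationalKGroup T) (X : 𝒱.Obj) :
    Parshin T X ↔ ∀ n : ℤ, T.Vanishes X n := by
  constructor
  · intro h n i _ m _
    exact h m
  · intro h m
    have h1 : ⨆ i, T.gr X i = ⊥ := by
      rw [iSup_eq_bot]
      intro i
      rw [Submodule.eq_bot_iff]
      exact fun x hx => h i i le_rfl x hx
    rw [hT.adams X] at h1
    have h2 : m ∈ (⊤ : Submodule ℚ (T.M X)) := trivial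
    rw [h1] at h2
    exact (Submodule.mem_bot ℚ).1 h2

theorem parshinForRankOver_of_motivic {E : IntermediateField ℚ ℂ} {q r : ℕ} {I : Type}
    {f : I → ℤ[X]} (h : MotivicForRankOver E q r f) : ParshinForRankOver E q r f := by
  intro k _ 𝒱 C _ K _ _ _ H _ s A Z πA πZ hsit
  obtain ⟨J, hJ, deg, D, hD, hT⟩ := h k 𝒱 C K H s A Z πA πZ hsit
  refine ⟨J, hJ, deg, D, hD, fun T hK hπ => ?_⟩
  obtain ⟨h1, h2⟩ := hT T hK.motivic hπ
  refine ⟨h1, ?_⟩
  rw [parshin_iff hK, parshin_iff hK]
  exact forall_congr' h2

end Pool.Agent.Y159.Par
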